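import Mathlib

/-!
# The number of lines of a finite linear space with Melchior's inequality

A finite linear space with `n ≥ 10` points, all of whose lines have at most `n - 2` points, and in
which `∑ |L| + 3 ≤ 3 · (number of lines)` holds (Melchior's inequality), has at least `2n - 4`
lines.
-/

set_option autoImplicit false

namespace Q137.Vert

open Finset

set_option linter.unusedSectionVars false

variable {α : Type*} [DecidableEq α]

/-- A finite linear space on `S` with lines `F`. -/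
structure LinSpace (S : Finset α) (F : Finset (Finset α)) : Prop where
  sub : ∀ L ∈ F, L ⊆ S
  two : ∀ L ∈ F, 2 ≤ L.card
  ex : ∀ x ∈ S, ∀ y ∈ S, x ≠ y → ∃ L ∈ F, x ∈ L ∧ y ∈ L
  uniq : ∀ L ∈ F, ∀ M ∈ F, ∀ x y : α, x ≠ y → x ∈ L → y ∈ L → x ∈ M → y ∈ M → L = M

namespace LinSpace

variable {S : Finset α} {F : Finset (Finset α)}

/-- Two different lines share at most one point. -/
lemma inter_card_le (h : LinSpace S F) {L M : Finset α} (hL : L ∈ F) (hM : M ∈ F) (hLM : L ≠ M) :
    (L ∩ M).card ≤ 1 := by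
  rw [card_le_one]
  intro x hx y hy
  by_contra hxy
  rw [mem_inter] at hx hy
  exact hLM (h.uniq L hL M hM x y hxy hx.1 hy.1 hx.2 hy.2)

/-- Counting the pairs of points of a subset `D` of `S`. -/
lemma sum_offDiag_le (h : LinSpace S F) (D : Finset α) (hD : D ⊆ S) :
    ∑ L ∈ F, (D ∩ L).offDiag.card = D.offDiag.card := by
  classical
  rw [← card_biUnion]
  · congr 1
    ext ⟨x, y⟩
    simp only [mem_biUnion, mem_offDiag, mem_inter]
    constructor
    · rintro ⟨L, _, ⟨hx, _⟩, ⟨hy, _⟩, hxy⟩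
      exact ⟨hx, hy, hxy⟩
    · rintro ⟨hx, hy, hxy⟩
      obtain ⟨L, hL, hxL, hyL⟩ := h.ex x (hD hx) y (hD hy) hxy
      exact ⟨L, hL, ⟨hx, hxL⟩, ⟨hy, hyL⟩, hxy⟩
  · intro L hL M hM hLM
    rw [Function.onFun, disjoint_left]
    rintro ⟨x, y⟩ h1 h2
    simp only [mem_offDiag, mem_inter] at h1 h2
    exact hLM (h.uniq L hL M hM x y h1.2.2 h1.1.2 h1.2.1.2 h2.1.2 h2.2.1.2)

lemma sum_pairs (h : LinSpace S F) :
    ∑ L ∈ F, L.card * (L.card - 1) = S.card * (S.card - 1) := by
  have h1 := h.sum_offDiag_le S Subset.rfl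
  have h2 : ∀ L ∈ F, (S ∩ L).offDiag.card = L.card * (L.card - 1) := by
    intro L hL
    rw [inter_eq_right.mpr (h.sub L hL), offDiag_card, Nat.mul_sub_one]
  rw [sum_congr rfl h2, offDiag_card] at h1
  rw [h1, Nat.mul_sub_one]

/-- The pencil bound: a line with `r` points and `k` points off it. -/
lemma pencil (h : LinSpace S F) {L₀ : Finset α} (hL₀ : L₀ ∈ F) {r k : ℕ} (hr : L₀.card = r)
    (hk : (S \ L₀).card = k) : 2 * (r * k) + 2 ≤ 2 * F.card + k * (k - 1) := by
  classical
  set D := S \ L₀ with hD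
  -- the incidences between pairs and lines
  have h1 : (L₀ ×ˢ D).card ≤ ∑ M ∈ F.erase L₀, (D ∩ M).card := by
    have hcov : L₀ ×ˢ D ⊆ (F.erase L₀).biUnion (fun M => (L₀ ∩ M) ×ˢ (D ∩ M)) := by
      rintro ⟨x, y⟩ hxy
      rw [mem_product] at hxy
      obtain ⟨hx, hy⟩ := hxy
      simp only at hx hy
      have hy' := hy
      rw [hD, mem_sdiff] at hy'
      have hne : x ≠ y := by rintro rfl; exact hy'.2 hx
      obtain ⟨M, hM, hxM, hyM⟩ := h.ex x (h.sub _ hL₀ hx) y hy'.1 hne
      simp only [mem_biUnion, mem_erase, mem_product, mem_inter]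
      refine ⟨M, ⟨?_, hM⟩, ⟨hx, hxM⟩, ⟨hy, hyM⟩⟩
      rintro rfl
      exact hy'.2 hyM
    refine (card_le_card hcov).trans (card_biUnion_le.trans (sum_le_sum fun M hM => ?_))
    rw [card_product]
    have := h.inter_card_le hL₀ (mem_of_mem_erase hM) (ne_of_mem_erase hM).symm
    calc _ ≤ 1 * (D ∩ M).card := Nat.mul_le_mul_right _ this
      _ = _ := one_mul _
  have h2 : ∑ M ∈ F.erase L₀, (D ∩ M).offDiag.card ≤ k * (k - 1) := by
    calc _ ≤ ∑ M ∈ F, (D ∩ M).offDiag.card :=
          sum_le_sum_of_subset (erase_subset _ _)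
      _ = D.offDiag.card := h.sum_offDiag_le D sdiff_subset
      _ = k * (k - 1) := by rw [offDiag_card, hk, Nat.mul_sub_one]
  have h3 : ∀ M ∈ F.erase L₀, 2 * (D ∩ M).card ≤ 2 + (D ∩ M).offDiag.card := by
    intro M _
    rw [offDiag_card]
    generalize (D ∩ M).card = d
    rcases Nat.lt_or_ge d 2 with hd | hd
    · interval_cases d <;> simp
    · obtain ⟨e, rfl⟩ := Nat.exists_eq_add_of_le hd
      have : (2 + e) * (2 + e) - (2 + e) = e * e + 3 * e + 2 := by
        have : (2 + e) * (2 + e) = (e * e + 3 * e + 2) + (2 + e) := by ring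
        rw [this, Nat.add_sub_cancel]
      rw [this]
      nlinarith
  have h4 : 2 * ∑ M ∈ F.erase L₀, (D ∩ M).card ≤ 2 * (F.card - 1) + k * (k - 1) := by
    rw [mul_sum]
    calc _ ≤ ∑ M ∈ F.erase L₀, (2 + (D ∩ M).offDiag.card) := sum_le_sum h3
      _ = 2 * (F.card - 1) + ∑ M ∈ F.erase L₀, (D ∩ M).offDiag.card := by
          rw [sum_add_distrib, sum_const, card_erase_of_mem hL₀, smul_eq_mul]; ring
      _ ≤ _ := by gcongr
  rw [card_product, hr, hk] at h1
  have h5 : 1 ≤ F.card := card_pos.mpr ⟨L₀, hL₀⟩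
  omega

/-- Points on many long lines: incidences and Cauchy's inequality. -/
lemma incidence (h : LinSpace S F) (G : Finset (Finset α)) (hG : G ⊆ F) {I b : ℕ}
    (hI : ∑ L ∈ G, L.card = I) (hb : G.card = b) :
    I ^ 2 ≤ S.card * (I + b * (b - 1)) := by
  classical
  -- degrees
  let deg : α → ℕ := fun x => (G.filter (fun L => x ∈ L)).card
  have h1 : ∑ x ∈ S, deg x = I := by
    simp only [deg, card_filter]
    rw [sum_comm, ← hI]
    refine sum_congr rfl fun L hL => ?_
    rw [← card_filter]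
    congr 1
    ext x
    simp only [mem_filter]
    exact ⟨fun h => h.2, fun hx => ⟨h.sub L (hG hL) hx, hx⟩⟩
  have h2 : ∑ x ∈ S, deg x ^ 2 = ∑ L ∈ G, ∑ M ∈ G, (L ∩ M).card := by
    have e : ∀ x ∈ S, deg x ^ 2 = ∑ L ∈ G, ∑ M ∈ G, (if x ∈ L then 1 else 0) *
        (if x ∈ M then 1 else 0) := by
      intro x _
      rw [← sum_mul_sum, ← card_filter, sq]
    rw [sum_congr rfl e, sum_comm]
    refine sum_congr rfl fun L hL => ?_
    rw [sum_comm]
    refine sum_congr rfl fun M hM => ?_
    have e2 : ∀ x ∈ S, (if x ∈ L then 1 else 0) * (if x ∈ M then 1 else 0) =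
        if x ∈ L ∩ M then 1 else 0 := by
      intro x _
      by_cases hx : x ∈ L <;> by_cases hy : x ∈ M <;> simp [hx, hy]
    rw [sum_congr rfl e2, ← card_filter]
    congr 1
    ext x
    simp only [mem_filter]
    exact ⟨fun h => h.2, fun hx => ⟨h.sub L (hG hL) (mem_inter.mp hx).1, hx⟩⟩
  have h3 : ∑ L ∈ G, ∑ M ∈ G, (L ∩ M).card ≤ I + b * (b - 1) := by
    have e : ∀ L ∈ G, ∑ M ∈ G, (L ∩ M).card ≤ L.card + (b - 1) := by
      intro L hL
      rw [← add_sum_erase G _ hL, inter_self]
      refine Nat.add_le_add_left ?_ _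
      calc _ ≤ ∑ M ∈ G.erase L, 1 := sum_le_sum fun M hM =>
            h.inter_card_le (hG hL) (hG (mem_of_mem_erase hM)) (ne_of_mem_erase hM).symm
        _ = b - 1 := by rw [sum_const, card_erase_of_mem hL, hb, smul_eq_mul, mul_one]
    calc _ ≤ ∑ L ∈ G, (L.card + (b - 1)) := sum_le_sum e
      _ = I + b * (b - 1) := by rw [sum_add_distrib, hI, sum_const, hb, smul_eq_mul]
  have h4 : (∑ x ∈ S, deg x) ^ 2 ≤ S.card * ∑ x ∈ S, deg x ^ 2 := by
    have := sq_sum_le_card_mul_sum_sq (s := S) (f := fun x => (deg x : ℤ))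
    exact_mod_cast this
  rw [h1] at h4
  refine h4.trans (Nat.mul_le_mul_left _ ?_)
  rw [h2]
  exact h3

/-- The number of lines with `k` points. -/
def t (F : Finset (Finset α)) (k : ℕ) : ℕ := (F.filter (fun L => L.card = k)).card

lemma sum_by_size (F : Finset (Finset α)) {r : ℕ} (h2 : ∀ L ∈ F, 2 ≤ L.card)
    (hr : ∀ L ∈ F, L.card ≤ r) (hr6 : r ≤ 6) (g : ℕ → ℕ) :
    ∑ L ∈ F, g L.card = t F 2 * g 2 + t F 3 * g 3 + t F 4 * g 4 + t F 5 * g 5 + t F 6 * g 6 := by
  have hmaps : ∀ L ∈ F, L.card ∈ Finset.Icc 2 6 := fun L hL =>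
    Finset.mem_Icc.mpr ⟨h2 L hL, (hr L hL).trans hr6⟩
  rw [← sum_fiberwise_of_maps_to hmaps]
  have e : ∀ k ∈ Finset.Icc 2 6, ∑ L ∈ F with L.card = k, g L.card = t F k * g k := by
    intro k _
    rw [t, ← smul_eq_mul, ← sum_const]
    refine sum_congr rfl fun L hL => ?_
    rw [(mem_filter.mp hL).2]
  rw [sum_congr rfl e]
  have : Finset.Icc 2 6 = ({2, 3, 4, 5, 6} : Finset ℕ) := by decide
  rw [this]
  simp only [sum_insert (by decide : (2 : ℕ) ∉ ({3, 4, 5, 6} : Finset ℕ)),
    sum_insert (by decide : (3 : ℕ) ∉ ({4, 5, 6} : Finset ℕ)),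
    sum_insert (by decide : (4 : ℕ) ∉ ({5, 6} : Finset ℕ)),
    sum_insert (by decide : (5 : ℕ) ∉ ({6} : Finset ℕ)), sum_singleton]
  ring

lemma t_eq_zero (F : Finset (Finset α)) {r k : ℕ} (hr : ∀ L ∈ F, L.card ≤ r) (hk : r < k) :
    t F k = 0 := by
  rw [t, card_eq_zero, filter_eq_empty_iff]
  intro L hL h
  have := hr L hL
  omega

/-- **The combinatorial theorem.** -/
theorem two_n_sub_four (h : LinSpace S F) (mel : ∑ L ∈ F, L.card + 3 ≤ 3 * F.card)
    (hn : 10 ≤ S.card) (hmax : ∀ L ∈ F, L.card + 2 ≤ S.card) : 2 * S.card ≤ F.card + 4 := by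
  by_contra hcon
  push Not at hcon
  set n := S.card with hn'
  set f := F.card with hf
  -- a longest line
  have hne : F.Nonempty := by
    rw [nonempty_iff_ne_empty]
    intro h0
    rw [h0] at mel
    simp at mel
    have : f = 0 := by rw [hf, h0, card_empty]
    omega
  obtain ⟨L₀, hL₀, hmaxL⟩ := exists_max_image F card hne
  set r := L₀.card with hr
  have hr2 : 2 ≤ r := h.two L₀ hL₀
  have hrn : r + 2 ≤ n := hmax L₀ hL₀
  have hk : (S \ L₀).card = n - r := by rw [card_sdiff_of_subset (h.sub _ hL₀)]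
  have hp := h.pencil hL₀ rfl hk
  rw [← hr, ← hf] at hp
  -- the chord inequality
  have hpairs := h.sum_pairs
  rw [← hn'] at hpairs
  have hchord : n * (n - 1) + 3 * (r + 1) ≤ (r + 3) * f := by
    have h1 : ∀ L ∈ F, L.card * (L.card - 1) + 2 * r ≤ (r + 1) * L.card := by
      intro L hL
      have a := h.two L hL
      have b := hmaxL L hL
      obtain ⟨u, hu⟩ := Nat.exists_eq_add_of_le a
      obtain ⟨v, hv⟩ := Nat.exists_eq_add_of_le b
      have hu1 : L.card - 1 = 1 + u := by omega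
      have hrv : r = 2 + u + v := by omega
      rw [hu1, hu, hrv]
      nlinarith
    have h2 : ∑ L ∈ F, (L.card * (L.card - 1) + 2 * r) ≤ ∑ L ∈ F, (r + 1) * L.card := sum_le_sum h1
    rw [sum_add_distrib, sum_const, ← mul_sum, hpairs, smul_eq_mul, ← hf] at h2
    have h3 : (r + 1) * (∑ L ∈ F, L.card + 3) ≤ (r + 1) * (3 * f) := Nat.mul_le_mul_left _ mel
    nlinarith
  -- the pencil bound gives `3 r ≤ n + 4`
  obtain ⟨k, hkr⟩ : ∃ k, n = r + k := ⟨n - r, by omega⟩
  have hk2 : 2 ≤ k := by omega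
  have hnk : n - r = k := by omega
  rw [hnk] at hp
  have h3r : 3 * r ≤ n + 4 := by
    by_contra h3
    push Not at h3
    -- `n + 5 ≤ 3 r`
    obtain ⟨j, hj⟩ := Nat.exists_eq_add_of_le hk2
    have hkk : k * (k - 1) = (2 + j) * (1 + j) := by
      have : k - 1 = 1 + j := by omega
      rw [this, hj]
    rw [hkk] at hp
    have h6 : f + 5 ≤ 2 * n := by omega
    rw [hkr] at h3 h6
    rw [hj] at h3 h6 hp
    -- now everything in terms of `r` and `j`
    have h7 : 2 * (r * (2 + j)) + 2 + 10 ≤ 4 * (r + (2 + j)) + (2 + j) * (1 + j) := by linarith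
    -- `2 r ≥ 2 + j + 5 = j + 7` hence contradiction
    have h8 : j + 7 ≤ 2 * r := by omega
    nlinarith
  by_cases hbig : 16 ≤ n
  · -- large `n`
    have h6 : f + 5 ≤ 2 * n := by omega
    have h7 : (r + 3) * (f + 5) ≤ (r + 3) * (2 * n) := Nat.mul_le_mul_left _ h6
    obtain ⟨m, hm⟩ := Nat.exists_eq_add_of_le hbig
    have h8 : n - 1 = 15 + m := by omega
    rw [h8] at hchord
    rw [hm] at hchord h7 h3r
    nlinarith
  · push Not at hbig
    have hr6 : r ≤ 6 := by omega
    have hmel2 := mel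
    have hle : ∀ L ∈ F, L.card ≤ r := hmaxL
    have s1 := sum_by_size F h.two hle hr6 (fun k => k)
    have s2 := sum_by_size F h.two hle hr6 (fun k => k * (k - 1))
    have s0 := sum_by_size F h.two hle hr6 (fun _ => 1)
    simp only [sum_const, smul_eq_mul, mul_one] at s0
    norm_num at s1 s2
    rw [hpairs] at s2
    rw [s1] at mel
    rw [← hf] at s0
    -- long lines
    let G := F.filter (fun L => 4 ≤ L.card)
    have hGI : ∑ L ∈ G, L.card = t F 4 * 4 + t F 5 * 5 + t F 6 * 6 := by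
      have := sum_by_size F h.two hle hr6 (fun k => if 4 ≤ k then k else 0)
      norm_num at this
      rw [← this, sum_filter]
    have hGb : G.card = t F 4 + t F 5 + t F 6 := by
      have := sum_by_size F h.two hle hr6 (fun k => if 4 ≤ k then 1 else 0)
      norm_num at this
      rw [← this]
    have hinc := h.incidence G (filter_subset _ _) hGI hGb
    rw [← hn'] at hinc
    have z5 : r ≤ 4 → t F 5 = 0 := fun hh => t_eq_zero F hle (by omega)
    have z6 : r ≤ 5 → t F 6 = 0 := fun hh => t_eq_zero F hle (by omega)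
    have z4 : r ≤ 3 → t F 4 = 0 := fun hh => t_eq_zero F hle (by omega)
    clear_value f n r
    generalize t F 2 = t2 at *
    generalize t F 3 = t3 at *
    generalize t F 4 = t4 at *
    generalize t F 5 = t5 at *
    generalize t F 6 = t6 at *
    clear hGI hGb
    clear hmaxL hle hp hpairs s1 hmel2 hk hnk hkr hmax
    interval_cases n
    · interval_cases r <;> try omega
      · have e4 : t4 = 6 := by omega
        have e5 : t5 = 0 := z5 (by omega)
        have e6 : t6 = 0 := z6 (by omega)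
        subst e4 e5 e6
        norm_num at hinc
    · interval_cases r <;> try omega
      · have e6 : t6 = 0 := z6 (by omega)
        subst e6
        have h5 : t5 ≤ 6 := by omega
        have h4 : t4 ≤ 9 := by omega
        interval_cases t5 <;> interval_cases t4 <;> first | omega | norm_num at hinc
    · interval_cases r <;> try omega
      · have e6 : t6 = 0 := z6 (by omega)
        subst e6
        have h5 : t5 ≤ 6 := by omega
        have h4 : t4 ≤ 11 := by omega
        interval_cases t5 <;> interval_cases t4 <;> first | omega | norm_num at hinc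
    · interval_cases r <;> try omega
    · interval_cases r <;> try omega
      · have h6 : t6 ≤ 6 := by omega
        have h5 : t5 ≤ 9 := by omega
        clear hinc
        interval_cases t6 <;> interval_cases t5 <;> omega
    · interval_cases r <;> try omega

end LinSpace

end Q137.Vert
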