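import Mathlib
import Pool.Agent.Helper543.Melchior
import Pool.Agent.Q137.Vert.Comb

/-!
# From arrangements of projective lines to finite point sets of the plane
-/

set_option autoImplicit false

namespace Q137.Vert

open Finset Module Pool.Agent.Helper543.Melchior

noncomputable section

/-- The theorem for finite sets of points of the plane. -/
theorem points {S : Finset Pt} (hS : ∃ a ∈ S, ∃ b ∈ S, ∃ c ∈ S, cr a b c ≠ 0)
    (hn : 10 ≤ S.card) (hmax : ∀ L ∈ lines S, L.card + 2 ≤ S.card) :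
    2 * S.card ≤ (lines S).card + 4 := by
  classical
  have h : LinSpace S (lines S) := by
    refine ⟨fun L hL => line_subset hL, fun L hL => ?_, ?_, ?_⟩
    · obtain ⟨a, ha, b, hb, hab⟩ := exists_two hL
      exact Finset.one_lt_card.mpr ⟨a, ha, b, hb, hab⟩
    · intro x hx y hy hxy
      exact ⟨lineOf S x y, lineOf_mem_lines hx hy hxy, mem_lineOf.2 ⟨hx, cr_self_left _ _⟩,
        mem_lineOf.2 ⟨hy, cr_self_right _ _⟩⟩
    · intro L hL M hM x y hxy hxL hyL hxM hyM
      rw [eq_lineOf hL hxL hyL hxy, eq_lineOf hM hxM hyM hxy]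
  exact h.two_n_sub_four (melchior hS) hn hmax

/-- Vectors of `ℝ³`. -/
abbrev V := Fin 3 → ℝ

/-- The vector `(1, s, s²)`. -/
def cvec (s : ℝ) : V := ![1, s, s ^ 2]

/-- The basis vectors `e₂`, `e₃`. -/
def e2 : V := ![0, 1, 0]
def e3 : V := ![0, 0, 1]

/-- A two-dimensional subspace is the kernel of a functional. -/
lemma exists_fun {L : Submodule ℝ V} (hL : finrank ℝ L = 2) :
    ∃ f : V →ₗ[ℝ] ℝ, f ≠ 0 ∧ L = LinearMap.ker f := by
  have hlt : L < ⊤ := by
    rw [lt_top_iff_ne_top]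
    rintro rfl
    rw [finrank_top] at hL
    simp at hL
  obtain ⟨f, hf, hLf⟩ := Submodule.exists_le_ker_of_lt_top L hlt
  refine ⟨f, hf, ?_⟩
  apply Submodule.eq_of_le_of_finrank_eq hLf
  have h1 := LinearMap.finrank_range_add_finrank_ker f
  have h2 : LinearMap.range f = ⊤ := LinearMap.range_eq_top.mpr (LinearMap.surjective hf)
  rw [h2, finrank_top] at h1
  simp at h1
  omega

/-- The functional in coordinates. -/
lemma fun_apply (f : V →ₗ[ℝ] ℝ) (v : V) (s : ℝ) :
    f v = v 0 * f (cvec s) + (v 1 - s * v 0) * f e2 + (v 2 - s ^ 2 * v 0) * f e3 := by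
  have hv : v = v 0 • cvec s + (v 1 - s * v 0) • e2 + (v 2 - s ^ 2 * v 0) • e3 := by
    ext i
    fin_cases i <;> simp [cvec, e2, e3] <;> ring
  conv_lhs => rw [hv]
  simp only [map_add, map_smul, smul_eq_mul]

lemma fun_cvec (f : V →ₗ[ℝ] ℝ) (s : ℝ) :
    f (cvec s) = f (cvec 0) + s * f e2 + s ^ 2 * f e3 := by
  rw [fun_apply f (cvec s) 0]
  simp [cvec]

/-- A generic parameter. -/
lemma exists_param' (A : Finset (Submodule ℝ V)) (f : Submodule ℝ V → V →ₗ[ℝ] ℝ)
    (hf : ∀ L ∈ A, f L ≠ 0) : ∃ s : ℝ, ∀ L ∈ A, f L (cvec s) ≠ 0 := by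
  classical
  let q : Submodule ℝ V → Polynomial ℝ := fun L =>
    Polynomial.C (f L (cvec 0)) + Polynomial.X * Polynomial.C (f L e2) +
      Polynomial.X ^ 2 * Polynomial.C (f L e3)
  have hq : ∀ L s, (q L).eval s = f L (cvec s) := by
    intro L s
    simp only [q, Polynomial.eval_add, Polynomial.eval_C, Polynomial.eval_mul, Polynomial.eval_X,
      Polynomial.eval_pow]
    rw [fun_cvec (f L) s]
  have hq0 : ∀ L ∈ A, q L ≠ 0 := by
    intro L hL h0
    have hz : ∀ s, f L (cvec s) = 0 := fun s => by rw [← hq, h0]; simp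
    have z0 := hz 0
    have z1 := hz 1
    have z2 := hz (-1)
    rw [fun_cvec (f L) 1] at z1
    rw [fun_cvec (f L) (-1)] at z2
    have w2 : f L e2 = 0 := by linarith
    have w3 : f L e3 = 0 := by linarith
    apply hf L hL
    ext v
    simp only [LinearMap.coe_comp, Function.comp_apply, LinearMap.zero_apply]
    rw [fun_apply (f L) _ 0, z0, w2, w3]
    ring
  let R : Finset ℝ := A.biUnion (fun L => (q L).roots.toFinset)
  obtain ⟨s, hs⟩ := Infinite.exists_notMem_finset R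
  refine ⟨s, fun L hL h0 => hs ?_⟩
  rw [mem_biUnion]
  refine ⟨L, hL, ?_⟩
  rw [Multiset.mem_toFinset, Polynomial.mem_roots (hq0 L hL), Polynomial.IsRoot, hq]
  exact h0

/-- The dual point of a functional in the chart given by `s`. -/
def pt (f : V →ₗ[ℝ] ℝ) (s : ℝ) : Pt := (f e2 / f (cvec s), f e3 / f (cvec s))

/-- The coefficient matrix of three functionals. -/
def mat (f g h : V →ₗ[ℝ] ℝ) (s : ℝ) : Matrix (Fin 3) (Fin 3) ℝ :=
  !![f (cvec s), f e2, f e3; g (cvec s), g e2, g e3; h (cvec s), h e2, h e3]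

lemma cr_eq {f g h : V →ₗ[ℝ] ℝ} {s : ℝ} (hf : f (cvec s) ≠ 0) (hg : g (cvec s) ≠ 0)
    (hh : h (cvec s) ≠ 0) :
    cr (pt f s) (pt g s) (pt h s) * (f (cvec s) * g (cvec s) * h (cvec s)) =
      (mat f g h s).det := by
  rw [mat, Matrix.det_fin_three]
  simp only [cr, pt, Matrix.of_apply, Matrix.cons_val', Matrix.cons_val_zero, Matrix.cons_val_one,
    Matrix.cons_val]
  field_simp
  ring

lemma cr_eq_zero_iff {f g h : V →ₗ[ℝ] ℝ} {s : ℝ} (hf : f (cvec s) ≠ 0) (hg : g (cvec s) ≠ 0)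
    (hh : h (cvec s) ≠ 0) :
    cr (pt f s) (pt g s) (pt h s) = 0 ↔ ∃ v : V, v ≠ 0 ∧ f v = 0 ∧ g v = 0 ∧ h v = 0 := by
  have h1 : cr (pt f s) (pt g s) (pt h s) = 0 ↔ (mat f g h s).det = 0 := by
    rw [← cr_eq hf hg hh]
    simp [hf, hg, hh]
  rw [h1, ← Matrix.exists_mulVec_eq_zero_iff]
  constructor
  · rintro ⟨x, hx, hx0⟩
    refine ⟨x 0 • cvec s + x 1 • e2 + x 2 • e3, ?_, ?_, ?_, ?_⟩
    · intro h0
      apply hx
      have a0 := congrFun h0 0
      have a1 := congrFun h0 1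
      have a2 := congrFun h0 2
      simp [cvec, e2, e3] at a0 a1 a2
      rw [a0] at a1 a2
      simp at a1 a2
      ext i
      fin_cases i <;> simp [a0, a1, a2]
    · have := congrFun hx0 0
      simp [mat, Matrix.mulVec, dotProduct, Fin.sum_univ_three] at this
      simp only [map_add, map_smul, smul_eq_mul]
      linarith
    · have := congrFun hx0 1
      simp [mat, Matrix.mulVec, dotProduct, Fin.sum_univ_three] at this
      simp only [map_add, map_smul, smul_eq_mul]
      linarith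
    · have := congrFun hx0 2
      simp [mat, Matrix.mulVec, dotProduct, Fin.sum_univ_three] at this
      simp only [map_add, map_smul, smul_eq_mul]
      linarith
  · rintro ⟨v, hv, v1, v2, v3⟩
    refine ⟨![v 0, v 1 - s * v 0, v 2 - s ^ 2 * v 0], ?_, ?_⟩
    · intro h0
      apply hv
      have a0 := congrFun h0 0
      have a1 := congrFun h0 1
      have a2 := congrFun h0 2
      simp at a0 a1 a2
      rw [a0] at a1 a2
      simp at a1 a2
      ext i
      fin_cases i <;> simp [a0, a1, a2]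
    · rw [fun_apply f v s] at v1
      rw [fun_apply g v s] at v2
      rw [fun_apply h v s] at v3
      ext i
      fin_cases i
      · simp [mat, Matrix.mulVec, dotProduct, Fin.sum_univ_three]
        linarith
      · simp [mat, Matrix.mulVec, dotProduct, Fin.sum_univ_three]
        linarith
      · simp [mat, Matrix.mulVec, dotProduct, Fin.sum_univ_three]
        linarith

lemma finrank_inf {L M : Submodule ℝ V} (hL : finrank ℝ L = 2) (hM : finrank ℝ M = 2)
    (hLM : L ≠ M) : finrank ℝ (L ⊓ M : Submodule ℝ V) = 1 := by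
  have h1 := Submodule.finrank_sup_add_finrank_inf_eq L M
  have h2 : finrank ℝ (L ⊔ M : Submodule ℝ V) = 3 := by
    have h3 : finrank ℝ (L ⊔ M : Submodule ℝ V) ≤ 3 := by
      have := Submodule.finrank_le (L ⊔ M)
      simpa using this
    have h4 : L < L ⊔ M := by
      rw [left_lt_sup]
      intro hle
      exact hLM (Submodule.eq_of_le_of_finrank_eq hle (by rw [hL, hM])).symm
    have := Submodule.finrank_lt_finrank_of_lt h4
    omega
  omega

lemma eq_inf {L M P : Submodule ℝ V} (hL : finrank ℝ L = 2) (hM : finrank ℝ M = 2)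
    (hLM : L ≠ M) (hP : finrank ℝ P = 1) (h1 : P ≤ L) (h2 : P ≤ M) : P = L ⊓ M :=
  Submodule.eq_of_le_of_finrank_eq (le_inf h1 h2) (by rw [hP, finrank_inf hL hM hLM])

/-- The vertices of an arrangement. -/
def vert (A : Finset (Submodule ℝ V)) : Set (Submodule ℝ V) :=
  {P | finrank ℝ P = 1 ∧ ∃ L ∈ A, ∃ M ∈ A, L ≠ M ∧ P ≤ L ∧ P ≤ M}

lemma vert_finite (A : Finset (Submodule ℝ V)) (hA : ∀ L ∈ A, finrank ℝ L = 2) :
    (vert A).Finite := by
  classical
  refine ((A ×ˢ A).image (fun x => x.1 ⊓ x.2)).finite_toSet.subset ?_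
  rintro P ⟨hP, L, hL, M, hM, hLM, h1, h2⟩
  rw [Finset.mem_coe, Finset.mem_image]
  exact ⟨(L, M), Finset.mem_product.mpr ⟨hL, hM⟩, (eq_inf (hA L hL) (hA M hM) hLM hP h1 h2).symm⟩

/-- **The theorem for arrangements of lines in the real projective plane.** -/
theorem arrangement (A : Finset (Submodule ℝ V)) (hA : ∀ L ∈ A, finrank ℝ L = 2)
    (hn : 10 ≤ A.card)
    (hconc : ¬ ∃ P : Submodule ℝ V, finrank ℝ P = 1 ∧ ∀ L ∈ A, P ≤ L)
    (hnp : ¬ ∃ P : Submodule ℝ V, finrank ℝ P = 1 ∧ ∃ L₀ ∈ A, ¬ P ≤ L₀ ∧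
      ∀ L ∈ A, L ≠ L₀ → P ≤ L) : 2 * A.card ≤ (vert A).ncard + 4 := by
  classical
  -- functionals
  have hex : ∀ L : Submodule ℝ V, ∃ f : V →ₗ[ℝ] ℝ, L ∈ A → f ≠ 0 ∧ L = LinearMap.ker f := by
    intro L
    by_cases hL : L ∈ A
    · obtain ⟨f, hf⟩ := exists_fun (hA L hL)
      exact ⟨f, fun _ => hf⟩
    · exact ⟨0, fun h => absurd h hL⟩
  choose f hf using hex
  obtain ⟨s, hs⟩ := exists_param' A f (fun L hL => (hf L hL).1)
  have hmem : ∀ L ∈ A, ∀ v, v ∈ L ↔ f L v = 0 := by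
    intro L hL v
    conv_lhs => rw [(hf L hL).2]
    exact LinearMap.mem_ker
  let p : Submodule ℝ V → Pt := fun L => pt (f L) s
  have hpinj : Set.InjOn p (A : Set (Submodule ℝ V)) := by
    intro L hL M hM h
    rw [Finset.mem_coe] at hL hM
    simp only [p, pt, Prod.mk.injEq] at h
    obtain ⟨ha, hb⟩ := h
    have c1 := hs L hL
    have c2 := hs M hM
    rw [div_eq_div_iff c1 c2] at ha hb
    ext v
    rw [hmem L hL, hmem M hM, fun_apply (f L) v s, fun_apply (f M) v s]
    have key : (v 0 * f L (cvec s) + (v 1 - s * v 0) * f L e2 + (v 2 - s ^ 2 * v 0) * f L e3) *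
        f M (cvec s) = (v 0 * f M (cvec s) + (v 1 - s * v 0) * f M e2 +
          (v 2 - s ^ 2 * v 0) * f M e3) * f L (cvec s) := by
      linear_combination (v 1 - s * v 0) * ha + (v 2 - s ^ 2 * v 0) * hb
    constructor
    · intro h0
      rw [h0, zero_mul] at key
      rcases mul_eq_zero.mp key.symm with h | h
      · exact h
      · exact absurd h c1
    · intro h0
      rw [h0, zero_mul] at key
      rcases mul_eq_zero.mp key with h | h
      · exact h
      · exact absurd h c2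
  -- collinearity = concurrency
  have hcr : ∀ L ∈ A, ∀ M ∈ A, L ≠ M → ∀ N ∈ A, (cr (p L) (p M) (p N) = 0 ↔ L ⊓ M ≤ N) := by
    intro L hL M hM hLM N hN
    have hfr := finrank_inf (hA L hL) (hA M hM) hLM
    rw [cr_eq_zero_iff (hs L hL) (hs M hM) (hs N hN)]
    constructor
    · rintro ⟨v, hv, v1, v2, v3⟩
      have hvL : v ∈ L ⊓ M := ⟨(hmem L hL v).mpr v1, (hmem M hM v).mpr v2⟩
      have hspan : (Submodule.span ℝ {v}) = L ⊓ M := by
        apply Submodule.eq_of_le_of_finrank_eq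
        · rw [Submodule.span_singleton_le_iff_mem]; exact hvL
        · rw [hfr, finrank_span_singleton hv]
      rw [← hspan, Submodule.span_singleton_le_iff_mem]
      exact (hmem N hN v).mpr v3
    · intro hle
      obtain ⟨v, hv, hv0⟩ := Submodule.exists_mem_ne_zero_of_ne_bot
        (p := L ⊓ M) (by rintro h0; rw [h0] at hfr; simp at hfr)
      exact ⟨v, hv0, (hmem L hL v).mp hv.1, (hmem M hM v).mp hv.2, (hmem N hN v).mp (hle hv)⟩
  set S := A.image p with hS
  have hcard : S.card = A.card := card_image_of_injOn hpinj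
  have hlineOf : ∀ L ∈ A, ∀ M ∈ A, L ≠ M →
      lineOf S (p L) (p M) = (A.filter (fun N => L ⊓ M ≤ N)).image p := by
    intro L hL M hM hLM
    ext x
    rw [mem_lineOf, hS, mem_image, mem_image]
    constructor
    · rintro ⟨⟨N, hN, rfl⟩, h0⟩
      exact ⟨N, mem_filter.mpr ⟨hN, (hcr L hL M hM hLM N hN).mp h0⟩, rfl⟩
    · rintro ⟨N, hN, rfl⟩
      rw [mem_filter] at hN
      exact ⟨⟨N, hN.1, rfl⟩, (hcr L hL M hM hLM N hN.1).mpr hN.2⟩
  have hlines : ∀ ℓ ∈ lines S, ∃ L ∈ A, ∃ M ∈ A, L ≠ M ∧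
      ℓ = (A.filter (fun N => L ⊓ M ≤ N)).image p := by
    intro ℓ hℓ
    simp only [lines, mem_image, mem_offDiag] at hℓ
    obtain ⟨⟨a, b⟩, ⟨ha, hb, hab⟩, rfl⟩ := hℓ
    simp only at ha hb hab ⊢
    rw [hS, mem_image] at ha hb
    obtain ⟨L, hL, rfl⟩ := ha
    obtain ⟨M, hM, rfl⟩ := hb
    have hLM : L ≠ M := by rintro rfl; exact hab rfl
    exact ⟨L, hL, M, hM, hLM, hlineOf L hL M hM hLM⟩
  -- not all collinear
  have hnc : ∃ a ∈ S, ∃ b ∈ S, ∃ c ∈ S, cr a b c ≠ 0 := by
    obtain ⟨L, hL, M, hM, hLM⟩ := Finset.one_lt_card.mp (by omega : 1 < A.card)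
    have h1 : ∃ N ∈ A, ¬ L ⊓ M ≤ N := by
      by_contra hcon
      push Not at hcon
      exact hconc ⟨L ⊓ M, finrank_inf (hA L hL) (hA M hM) hLM, hcon⟩
    obtain ⟨N, hN, hN2⟩ := h1
    exact ⟨p L, mem_image_of_mem p hL, p M, mem_image_of_mem p hM, p N, mem_image_of_mem p hN,
      fun h0 => hN2 ((hcr L hL M hM hLM N hN).mp h0)⟩
  have hmax : ∀ ℓ ∈ lines S, ℓ.card + 2 ≤ S.card := by
    intro ℓ hℓ
    obtain ⟨L, hL, M, hM, hLM, rfl⟩ := hlines ℓ hℓ
    have hfr := finrank_inf (hA L hL) (hA M hM) hLM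
    have hc1 : ((A.filter (fun N => L ⊓ M ≤ N)).image p).card ≤
        (A.filter (fun N => L ⊓ M ≤ N)).card := card_image_le
    rw [hcard]
    have hsplit : (A.filter (fun N => L ⊓ M ≤ N)).card + (A.filter (fun N => ¬ L ⊓ M ≤ N)).card =
        A.card := card_filter_add_card_filter_not (s := A) (fun N => L ⊓ M ≤ N)
    have h2 : 2 ≤ (A.filter (fun N => ¬ L ⊓ M ≤ N)).card := by
      by_contra hcon
      push Not at hcon
      rcases Nat.lt_or_ge 0 (A.filter (fun N => ¬ L ⊓ M ≤ N)).card with hpos | hzero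
      · have h1 : (A.filter (fun N => ¬ L ⊓ M ≤ N)).card = 1 := by omega
        obtain ⟨L₀, hL₀⟩ := card_eq_one.mp h1
        have hL₀' : L₀ ∈ A.filter (fun N => ¬ L ⊓ M ≤ N) := by rw [hL₀]; exact mem_singleton_self _
        rw [mem_filter] at hL₀'
        refine hnp ⟨L ⊓ M, hfr, L₀, hL₀'.1, hL₀'.2, fun N hN hne => ?_⟩
        by_contra hN2
        have : N ∈ A.filter (fun N => ¬ L ⊓ M ≤ N) := mem_filter.mpr ⟨hN, hN2⟩
        rw [hL₀, mem_singleton] at this
        exact hne this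
      · have h0 : (A.filter (fun N => ¬ L ⊓ M ≤ N)).card = 0 := by omega
        rw [card_eq_zero, filter_eq_empty_iff] at h0
        exact hconc ⟨L ⊓ M, hfr, fun N hN => not_not.mp (h0 hN)⟩
    omega
  have hmain := points hnc (by rw [hcard]; exact hn) hmax
  rw [hcard] at hmain
  have hle : (lines S).card ≤ (vert A).ncard := by
    have hfin := vert_finite A hA
    have hsub : ((lines S : Finset (Finset Pt)) : Set (Finset Pt)) ⊆
        (fun P => (A.filter (fun N => P ≤ N)).image p) '' (vert A) := by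
      intro ℓ hℓ
      rw [Finset.mem_coe] at hℓ
      obtain ⟨L, hL, M, hM, hLM, rfl⟩ := hlines ℓ hℓ
      exact ⟨L ⊓ M, ⟨finrank_inf (hA L hL) (hA M hM) hLM, L, hL, M, hM, hLM, inf_le_left,
        inf_le_right⟩, rfl⟩
    calc (lines S).card = ((lines S : Finset (Finset Pt)) : Set (Finset Pt)).ncard :=
          (Set.ncard_coe_finset _).symm
      _ ≤ ((fun P => (A.filter (fun N => P ≤ N)).image p) '' (vert A)).ncard :=
          Set.ncard_le_ncard hsub (hfin.image _)
      _ ≤ (vert A).ncard := Set.ncard_image_le hfin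
  omega

end

end Q137.Vert
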